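import Pool.Agent.Helper40.AC.Stmts

set_option autoImplicit false

open scoped ContDiff Matrix

namespace Pool.Agent.Helper73.AC

open Pool.Agent.Helper40.AC

theorem equiv_ok (_h1 : S_PD) (h2 : S_HOM) (h3 : S_BLOCK) : S_EQUIV := by
  intro m n _ _ _ _ e f a b he hf hab hba
  set a' : Matrix m n BB := e * a * f with ha'
  set b' : Matrix n m BB := f * b * e with hb'
  have hea : e * a' = a' := by rw [ha', ← Matrix.mul_assoc, ← Matrix.mul_assoc, he]
  have haf : a' * f = a' := by rw [ha', Matrix.mul_assoc, hf]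
  have hfb : f * b' = b' := by rw [hb', ← Matrix.mul_assoc, ← Matrix.mul_assoc, hf]
  have hbe : b' * e = b' := by rw [hb', Matrix.mul_assoc, he]
  have hab' : a' * b' = e := by
    calc a' * b' = e * a * (f * f) * b * e := by rw [ha', hb']; simp only [Matrix.mul_assoc]
      _ = e * (a * b) * (a * b) * e := by rw [hf, ← hba]; simp only [Matrix.mul_assoc]
      _ = e := by rw [hab, he, he, he]
  have hba' : b' * a' = f := by
    calc b' * a' = f * b * (e * e) * a * f := by rw [ha', hb']; simp only [Matrix.mul_assoc]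
      _ = f * (b * a) * (b * a) * f := by rw [he, ← hab]; simp only [Matrix.mul_assoc]
      _ = f := by rw [hba, hf, hf, hf]
  let c : ℝ → ℂ := fun t => ((Real.cos (Real.pi * t / 2) : ℝ) : ℂ)
  let s : ℝ → ℂ := fun t => ((Real.sin (Real.pi * t / 2) : ℝ) : ℂ)
  have hcs : ∀ t, c t ^ 2 + s t ^ 2 = 1 := by
    intro t
    simp only [c, s]
    norm_cast
    rw [Real.cos_sq_add_sin_sq]
  have hc : ContDiff ℝ ∞ c := by
    have h0 : ContDiff ℝ ∞ (fun t : ℝ => Real.cos (Real.pi * t / 2)) := by fun_prop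
    exact Complex.ofRealCLM.contDiff.comp h0
  have hs : ContDiff ℝ ∞ s := by
    have h0 : ContDiff ℝ ∞ (fun t : ℝ => Real.sin (Real.pi * t / 2)) := by fun_prop
    exact Complex.ofRealCLM.contDiff.comp h0
  let R : ℝ → Matrix (m ⊕ n) (m ⊕ n) BB := fun t =>
    Matrix.fromBlocks ((c t ^ 2) • e) ((c t * s t) • a') ((c t * s t) • b') ((s t ^ 2) • f)
  have hRs : ∀ i j, ContDiff ℝ ∞ (fun q : ℝ × Ang => (R q.1 i j).fn q.2) := by
    have hc1 : ContDiff ℝ ∞ (fun q : ℝ × Ang => c q.1) := hc.comp contDiff_fst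
    have hs1 : ContDiff ℝ ∞ (fun q : ℝ × Ang => s q.1) := hs.comp contDiff_fst
    have hB : ∀ g : BB, ContDiff ℝ ∞ (fun q : ℝ × Ang => g.fn q.2) :=
      fun g => g.smooth.comp contDiff_snd
    rintro (i | i) (j | j)
    · exact (hc1.pow 2).mul (hB (e i j))
    · exact (hc1.mul hs1).mul (hB (a' i j))
    · exact (hc1.mul hs1).mul (hB (b' i j))
    · exact (hs1.pow 2).mul (hB (f i j))
  have hRi : ∀ t, R t * R t = R t := by
    intro t
    simp only [R]
    rw [Matrix.fromBlocks_multiply]
    simp only [Matrix.smul_mul, Matrix.mul_smul, smul_smul, he, hf, hea, haf, hfb, hbe, hab', hba',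
      ← add_smul]
    have hk := hcs t
    congr 1
    · congr 1; linear_combination c t ^ 2 * hk
    · congr 1; linear_combination c t * s t * hk
    · congr 1; linear_combination c t * s t * hk
    · congr 1; linear_combination s t ^ 2 * hk
  have h01 := h2 R hRs hRi
  have hR0 : R 0 = Matrix.fromBlocks e 0 0 0 := by
    have e1 : c 0 = 1 := by simp [c]
    have e2 : s 0 = 0 := by simp [s]
    simp only [R, e1, e2]
    simp
  have hR1 : R 1 = Matrix.fromBlocks 0 0 0 f := by
    have e1 : c 1 = 0 := by simp [c]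
    have e2 : s 1 = 1 := by simp [s]
    simp only [R, e1, e2]
    simp
  rw [hR0, hR1, h3.1, h3.1, h3.2.1, h3.2.1, add_zero, zero_add] at h01
  exact h01

end Pool.Agent.Helper73.AC
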